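import Pool.Agent.helper45.TC.Spec

/-! # Project TC, row CLA: the classification for at most three negative cycles -/

set_option autoImplicit false

open Polynomial Finset Pool.Agent.helper27.PC

namespace Pool.Agent.TC

theorem CLA_sd3 {s a b : ℕ} (hs : 1 ≤ s) (h1 : s ≤ a) (h2 : a ≤ b) (h : a = b ∨ a + s < b) :
    SuperDecreasing [s, a, b] := by
  intro x hx
  simp only [List.mem_cons, List.not_mem_nil, or_false] at hx
  simp only [List.filter_cons, List.filter_nil, decide_eq_true_eq]
  rcases hx with rfl | rfl | rfl <;> split_ifs <;> simp <;> omega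

theorem CLA_sd2 {a b : ℕ} (hs : 1 ≤ a) (h2 : a ≤ b) : SuperDecreasing [a, b] := by
  intro x hx
  simp only [List.mem_cons, List.not_mem_nil, or_false] at hx
  simp only [List.filter_cons, List.filter_nil, decide_eq_true_eq]
  rcases hx with rfl | rfl <;> split_ifs <;> simp <;> omega

theorem CLA (hTC1 : TC1_stmt) (hTC0 : TC0_stmt) : CLA_stmt := by
  intro n l hP hlen hC
  obtain ⟨hpos, hpw, hsum⟩ := hP
  match l, hlen, hC, hpos, hpw, hsum with
  | [], _, _, _, _, _ =>
    left
    intro x hx
    simp at hx
  | [a], _, _, hpos, _, _ =>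
    left
    intro x hx
    have hx' : x = a := by simpa using hx
    subst hx'
    have h1 : 1 ≤ x := hpos x (by simp)
    simp only [List.filter_cons, List.filter_nil, lt_irrefl, decide_false, Bool.false_eq_true, if_false, List.sum_nil]
    omega
  | [a, b], _, _, hpos, hpw, _ =>
    left
    have h1 : 1 ≤ a := hpos a (by simp)
    have h2 : a ≤ b := by
      simp only [List.pairwise_cons] at hpw
      exact hpw.1 b (by simp)
    exact CLA_sd2 h1 h2
  | [s, a, b], _, hC, hpos, hpw, hsum =>
    have h1 : 1 ≤ s := hpos s (by simp)
    have h2 : s ≤ a ∧ a ≤ b := by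
      simp only [List.pairwise_cons] at hpw
      exact ⟨hpw.1 a (by simp), hpw.2.1 b (by simp)⟩
    have hn : s + a + b = n := by
      simp only [List.sum_cons, List.sum_nil] at hsum
      omega
    rcases hC with hC | ⟨s', a', b', he, hC⟩
    · simp at hC
    · simp only [List.cons.injEq, and_true] at he
      obtain ⟨rfl, rfl, rfl⟩ := he
      by_cases hab : a = b
      · left
        exact CLA_sd3 h1 h2.1 h2.2 (Or.inl hab)
      by_cases hlt : a + s < b
      · left
        exact CLA_sd3 h1 h2.1 h2.2 (Or.inr hlt)
      have hev : Even (b - a) := by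
        rcases hC with hC | hC
        · exact absurd hC hlt
        · exact hC
      right
      rw [← hn]
      by_cases hb : b = a + s
      · exact hTC0 s a b h1 h2.1 hb hev
      · exact hTC1 s a b h1 h2.1 (by omega) (by omega) hev
  | _ :: _ :: _ :: _ :: _, hlen, _, _, _, _ =>
    simp only [List.length_cons] at hlen
    omega

end Pool.Agent.TC
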